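import Pool.Agent.Helper19.SQ.GoalsH

/-!
Project SQ (MP_bb32d1_al), packet HC: torus invariant elements act on singular vectors by a scalar
depending on the weight only.
-/

namespace Pool.Agent.Helper16.SQ

open Pool.Agent.Helper19.SQ

noncomputable section

section General

variable {B C : Type*} [Ring B] [Algebra ℂ B] [Ring C] [Algebra ℂ C]

theorem hc_mon_map (N : ℕ) (q : ℂ) (f : B →ₐ[ℂ] C) (E : ℕ → B) (b : ℕ → ℕ → ℕ) :
    mon N q (fun k => f (E k)) b = f (mon N q E b) := by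
  simp only [mon, rowM, map_list_prod, List.map_map, Function.comp_def, rv_map, map_pow]

theorem hc_list_smul_prod {α : Type*} (L : List α) (c : α → ℂ) (g : α → B) :
    (L.map fun x => c x • g x).prod = (L.map c).prod • (L.map g).prod := by
  induction L with
  | nil => simp
  | cons a L ih => simp only [List.map_cons, List.prod_cons, ih, smul_mul_smul_comm]

end General

/-- unit vector. -/
def hcsg (N i : ℕ) : Fin (N + 1) → ℤ := fun t => if (t : ℕ) = i then 1 else 0

/-- degree of a monomial. -/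
def hcDg (N : ℕ) (b : ℕ → ℕ → ℕ) : Fin (N + 1) → ℤ :=
  ((List.range N).map fun i => ((List.range (N - i)).map fun d =>
    (b i (i + 1 + d)) • (hcsg N i - hcsg N (i + 1 + d))).sum).sum

theorem hc_tw_add (N : ℕ) (s : ℕ → ℂˣ) (μ ν : Fin (N + 1) → ℤ) :
    tw N s (μ + ν) = tw N s μ * tw N s ν := by
  simp only [tw, Pi.add_apply]
  rw [← Finset.prod_mul_distrib]
  exact Finset.prod_congr rfl fun j _ => zpow_add₀ (s j).ne_zero _ _

theorem hc_tw_zero (N : ℕ) (s : ℕ → ℂˣ) : tw N s 0 = 1 := by simp [tw]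

theorem hc_tw_neg (N : ℕ) (s : ℕ → ℂˣ) (μ : Fin (N + 1) → ℤ) :
    tw N s (-μ) = (tw N s μ)⁻¹ := by
  simp only [tw, Pi.neg_apply, zpow_neg, Finset.prod_inv_distrib]

theorem hc_tw_inv (N : ℕ) (s : ℕ → ℂˣ) (μ : Fin (N + 1) → ℤ) :
    tw N (s⁻¹) μ = tw N s (-μ) := by
  simp only [tw, Pi.neg_apply, Pi.inv_apply, Units.val_inv_eq_inv_val, inv_zpow']

theorem hc_tw_nsmul (N : ℕ) (s : ℕ → ℂˣ) (c : ℕ) (μ : Fin (N + 1) → ℤ) :
    tw N s (c • μ) = tw N s μ ^ c := by
  induction c with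
  | zero => simp [hc_tw_zero]
  | succ c ih => rw [succ_nsmul, hc_tw_add, ih, pow_succ]

theorem hc_tw_sum (N : ℕ) (s : ℕ → ℂˣ) (L : List (Fin (N + 1) → ℤ)) :
    tw N s L.sum = (L.map (tw N s)).prod := by
  induction L with
  | nil => simp [hc_tw_zero]
  | cons a L ih => simp [hc_tw_add, ih]

theorem hc_tw_sg (N : ℕ) (s : ℕ → ℂˣ) (i : ℕ) (hi : i ≤ N) :
    tw N s (hcsg N i) = s i := by
  simp only [tw, hcsg]
  rw [Finset.prod_eq_single (⟨i, by omega⟩ : Fin (N + 1))]
  · simp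
  · intro t _ ht
    have : (t : ℕ) ≠ i := fun h => ht (Fin.ext h)
    simp [this]
  · simp

theorem hc_tw_sub (N : ℕ) (s : ℕ → ℂˣ) (i j : ℕ) (hi : i ≤ N) (hj : j ≤ N) :
    tw N s (hcsg N i - hcsg N j) = (s i : ℂ) * (s j : ℂ)⁻¹ := by
  rw [sub_eq_add_neg, hc_tw_add, hc_tw_neg, hc_tw_sg N s i hi, hc_tw_sg N s j hj]

theorem hc_tw_Dg (N : ℕ) (s : ℕ → ℂˣ) (b : ℕ → ℕ → ℕ) :
    tw N s (hcDg N b) = ((List.range N).map fun i => ((List.range (N - i)).map fun d =>
      ((s i : ℂ) * (s (i + 1 + d) : ℂ)⁻¹) ^ b i (i + 1 + d)).prod).prod := by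
  simp only [hcDg, hc_tw_sum, List.map_map, Function.comp_def]
  refine congrArg List.prod (List.map_congr_left fun i hi => ?_)
  have hi' := List.mem_range.1 hi
  refine congrArg List.prod (List.map_congr_left fun d hd => ?_)
  have hd' := List.mem_range.1 hd
  rw [hc_tw_nsmul, hc_tw_sub N s i _ (by omega) (by omega)]

section Scale

variable {B : Type*} [Ring B] [Algebra ℂ B]

theorem hc_rv_scale (q : ℂ) (s : ℕ → ℂˣ) (E : ℕ → B) (i d : ℕ) :
    rv q (fun k => ((s k : ℂ) * (s (k + 1) : ℂ)⁻¹) • E k) i (i + 1 + d)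
      = ((s i : ℂ) * (s (i + 1 + d) : ℂ)⁻¹) • rv q E i (i + 1 + d) := by
  have e : i + 1 + d - i - 1 = d := by omega
  rw [rv, rv, e, rvA_scale]
  rw [show i + d + 1 = i + 1 + d by omega]

theorem hc_mon_scale (N : ℕ) (q : ℂ) (s : ℕ → ℂˣ) (E : ℕ → B) (b : ℕ → ℕ → ℕ) :
    mon N q (fun k => ((s k : ℂ) * (s (k + 1) : ℂ)⁻¹) • E k) b
      = tw N s (hcDg N b) • mon N q E b := by
  rw [hc_tw_Dg]
  simp only [mon, rowM, hc_rv_scale, smul_pow]
  rw [← hc_list_smul_prod]
  refine congrArg List.prod (List.map_congr_left fun i _ => ?_)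
  exact hc_list_smul_prod _ _ _

end Scale

variable {N l : ℕ} {q : ℂ}

theorem hc_tor_monE (hl : l ≠ 0) (s : ℕ → ℂˣ) (b : ℕ → ℕ → ℕ) :
    tor N l q hl s (mon N q (gE N l q) b) = tw N s (hcDg N b) • mon N q (gE N l q) b := by
  rw [← hc_mon_map, ← hc_mon_scale]
  congr 1
  funext k
  exact tor_E hl s k

theorem hc_tor_monF (hl : l ≠ 0) (s : ℕ → ℂˣ) (b : ℕ → ℕ → ℕ) :
    tor N l q hl s (mon N q (gF N l q) b) = tw N s (-hcDg N b) • mon N q (gF N l q) b := by
  rw [← hc_mon_map, ← hc_tw_inv, ← hc_mon_scale]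
  congr 1
  funext k
  rw [tor_F]
  simp

theorem hc_tor_kmon (hl : l ≠ 0) (s : ℕ → ℂˣ) (κ : ℕ → ℕ) :
    tor N l q hl s (kmon N (gK N l q) κ) = kmon N (gK N l q) κ := by
  simp only [kmon, map_list_prod, List.map_map, Function.comp_def, map_pow, tor_K]

theorem hc_list_range_sum {M : Type*} [AddCommMonoid M] (n : ℕ) (f : ℕ → M) :
    ((List.range n).map f).sum = ∑ i ∈ Finset.range n, f i := by
  induction n with
  | zero => simp
  | succ n ih => rw [List.range_succ, List.map_append, List.sum_append, ih,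
      Finset.sum_range_succ]; simp

/-- height functional. -/
def hcht (N : ℕ) : (Fin (N + 1) → ℤ) →+ ℤ where
  toFun μ := ∑ t : Fin (N + 1), ((N : ℤ) - (t : ℕ)) * μ t
  map_zero' := by simp
  map_add' μ ν := by simp [mul_add, Finset.sum_add_distrib]

theorem hcht_sg (i : ℕ) (hi : i ≤ N) : hcht N (hcsg N i) = N - i := by
  change ∑ t : Fin (N + 1), ((N : ℤ) - (t : ℕ)) * hcsg N i t = N - i
  rw [Finset.sum_eq_single (⟨i, by omega⟩ : Fin (N + 1))]
  · simp [hcsg]
  · intro t _ ht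
    have : (t : ℕ) ≠ i := fun h => ht (Fin.ext h)
    simp [hcsg, this]
  · simp

theorem hcht_Dg (b : ℕ → ℕ → ℕ) : hcht N (hcDg N b)
    = ∑ i ∈ Finset.range N, ∑ d ∈ Finset.range (N - i), ((b i (i + 1 + d) * (d + 1) : ℕ) : ℤ) := by
  rw [hcDg, hc_list_range_sum, map_sum]
  refine Finset.sum_congr rfl fun i hi => ?_
  have hi' := Finset.mem_range.1 hi
  rw [hc_list_range_sum, map_sum]
  refine Finset.sum_congr rfl fun d hd => ?_
  have hd' := Finset.mem_range.1 hd
  rw [map_nsmul, map_sub, hcht_sg i (by omega), hcht_sg (i + 1 + d) (by omega)]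
  push_cast
  rw [nsmul_eq_mul]
  ring

theorem hc_Dg_zero (b : ℕ → ℕ → ℕ) (h : hcDg N b = 0) (i j : ℕ) (hij : i < j) (hj : j ≤ N) :
    b i j = 0 := by
  have h1 := hcht_Dg (N := N) b
  rw [h, map_zero] at h1
  have h2 : ∑ i ∈ Finset.range N, ∑ d ∈ Finset.range (N - i), b i (i + 1 + d) * (d + 1) = 0 := by
    exact_mod_cast h1.symm
  have h3 := Finset.sum_eq_zero_iff.1 h2 i (Finset.mem_range.2 (by omega))
  have h4 := Finset.sum_eq_zero_iff.1 h3 (j - i - 1) (Finset.mem_range.2 (by omega))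
  rw [show i + 1 + (j - i - 1) = j by omega] at h4
  rcases Nat.mul_eq_zero.1 h4 with h5 | h5
  · exact h5
  · omega

theorem hc_mon_one {B : Type*} [Ring B] [Algebra ℂ B] (E : ℕ → B) (b : ℕ → ℕ → ℕ)
    (h : ∀ i j, i < j → j ≤ N → b i j = 0) : mon N q E b = 1 := by
  rw [mon]
  apply List.prod_eq_one
  intro x hx
  obtain ⟨i, hi, rfl⟩ := List.mem_map.1 hx
  have hi' := List.mem_range.1 hi
  apply List.prod_eq_one
  intro y hy
  obtain ⟨d, hd, rfl⟩ := List.mem_map.1 hy
  have hd' := List.mem_range.1 hd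
  rw [h i (i + 1 + d) (by omega) (by omega), pow_zero]

section Mod

variable {M : Type} [AddCommGroup M] [Module ℂ M] [Module (A N l q) M]
  [IsScalarTower ℂ (A N l q) M]

theorem hc_smul_comm (a : A N l q) (c : ℂ) (m : M) : a • (c • m) = c • (a • m) :=
  (lsm a).map_smul c m

/-- extension of a weight. -/
def hclam (lam : Fin (N + 1) → ZMod l) (j : ℕ) : ZMod l :=
  if h : j < N + 1 then lam ⟨j, h⟩ else 0

theorem hc_K_smul {lam : Fin (N + 1) → ZMod l} {m : M} (hm : Sing q lam m) (j : ℕ)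
    (hj : j < N + 1) : gK N l q j • m = qz q (hclam lam j) • m := by
  have h := hm.2 ⟨j, hj⟩
  rw [hclam, dif_pos hj]
  exact h

theorem hc_Kpow_smul {lam : Fin (N + 1) → ZMod l} {m : M} (hm : Sing q lam m) (j : ℕ)
    (hj : j < N + 1) (c : ℕ) : gK N l q j ^ c • m = qz q (hclam lam j) ^ c • m := by
  induction c with
  | zero => simp
  | succ c ih => rw [pow_succ, mul_smul, hc_K_smul hm j hj, hc_smul_comm, ih, smul_smul,
      pow_succ, mul_comm]

theorem hc_Klist_smul {lam : Fin (N + 1) → ZMod l} {m : M} (hm : Sing q lam m) (κ : ℕ → ℕ)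
    (L : List ℕ) (hL : ∀ j ∈ L, j < N + 1) :
    (L.map fun j => gK N l q j ^ κ j).prod • m
      = (L.map fun j => qz q (hclam lam j) ^ κ j).prod • m := by
  induction L with
  | nil => simp
  | cons a L ih =>
    simp only [List.map_cons, List.prod_cons]
    rw [mul_smul, ih fun j hj => hL j (List.mem_cons_of_mem _ hj), hc_smul_comm,
      hc_Kpow_smul hm a (hL a List.mem_cons_self), smul_smul, mul_comm]

theorem hc_word_smul {lam : Fin (N + 1) → ZMod l} {m : M} (hm : Sing q lam m) (w : List ℕ)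
    (hw : w ≠ []) : (w.map (gE N l q)).prod • m = 0 := by
  rcases List.eq_nil_or_concat w with h | ⟨w', k, h⟩
  · exact absurd h hw
  · rw [h]
    simp only [List.concat_eq_append, List.map_append, List.prod_append, List.map_cons,
      List.map_nil, List.prod_cons, List.prod_nil, mul_one]
    rw [mul_smul, hm.1 k, smul_zero]

end Mod

theorem hc_ht_zero (b : ℕ → ℕ → ℕ) (h : ht N b = 0) (i j : ℕ) (hij : i < j) (hj : j ≤ N) :
    b i j = 0 := by
  have h3 := Finset.sum_eq_zero_iff.1 h i (Finset.mem_range.2 (by omega))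
  have h4 := Finset.sum_eq_zero_iff.1 h3 j (Finset.mem_range.2 (by omega))
  rcases Nat.mul_eq_zero.1 h4 with h5 | h5
  · exact h5
  · omega

/-- the property to be proved for `a`. -/
def HCprop (N l : ℕ) (q : ℂ) (a : A N l q) : Prop :=
  ∃ c : (Fin (N + 1) → ZMod l) → ℂ, ∀ (M : Type) [AddCommGroup M] [Module ℂ M]
      [Module (A N l q) M] [IsScalarTower ℂ (A N l q) M] (lam : Fin (N + 1) → ZMod l) (m : M),
      Sing q lam m → a • m = c lam • m

theorem hc_span (S : Set (A N l q)) (hS : ∀ y ∈ S, HCprop N l q y) (a : A N l q)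
    (ha : a ∈ Submodule.span ℂ S) : HCprop N l q a := by
  induction ha using Submodule.span_induction with
  | mem x hx => exact hS x hx
  | zero => exact ⟨fun _ => 0, fun M _ _ _ _ lam m _ => by simp⟩
  | add x y _ _ hx hy =>
    obtain ⟨c, hc⟩ := hx
    obtain ⟨d, hd⟩ := hy
    exact ⟨fun lam => c lam + d lam, fun M _ _ _ _ lam m hm => by
      rw [add_smul, hc M lam m hm, hd M lam m hm, add_smul]⟩
  | smul r x _ hx =>
    obtain ⟨c, hc⟩ := hx
    exact ⟨fun lam => r * c lam, fun M _ _ _ _ lam m hm => by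
      rw [smul_assoc, hc M lam m hm, smul_smul]⟩

/-- eigenvector argument. -/
theorem hc_eigen (f : A N l q →ₗ[ℂ] A N l q) (S : Set (A N l q))
    (hS : ∀ y ∈ S, ∃ μ : ℂ, f y = μ • y) (a : A N l q) (ha : a ∈ Submodule.span ℂ S)
    (hf : f a = a) : a ∈ Submodule.span ℂ {y | y ∈ S ∧ f y = y} := by
  have hsplit : S = {y | y ∈ S ∧ f y = y} ∪ {y | y ∈ S ∧ f y ≠ y} := by
    ext y
    constructor
    · intro hy
      by_cases h : f y = y
      · exact Or.inl ⟨hy, h⟩
      · exact Or.inr ⟨hy, h⟩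
    · rintro (h | h)
      · exact h.1
      · exact h.1
  rw [hsplit, Submodule.span_union, Submodule.mem_sup] at ha
  obtain ⟨u, hu, v, hv, huv⟩ := ha
  have hu1 : u ∈ Module.End.eigenspace f 1 := by
    refine (Submodule.span_le (p := Module.End.eigenspace f 1)).2 ?_ hu
    intro y hy
    rw [SetLike.mem_coe, Module.End.mem_eigenspace_iff, hy.2, one_smul]
  have ha1 : a ∈ Module.End.eigenspace f 1 := by
    rw [Module.End.mem_eigenspace_iff, hf, one_smul]
  have hv1 : v ∈ Module.End.eigenspace f 1 := by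
    have : v = a - u := by rw [← huv]; abel
    rw [this]
    exact Submodule.sub_mem _ ha1 hu1
  have hv2 : v ∈ ⨆ (μ : ℂ) (_ : μ ≠ 1), Module.End.eigenspace f μ := by
    refine (Submodule.span_le (p := ⨆ (μ : ℂ) (_ : μ ≠ 1), Module.End.eigenspace f μ)).2 ?_ hv
    intro y hy
    obtain ⟨μ, hμ⟩ := hS y hy.1
    have hne : μ ≠ 1 := by
      intro h
      apply hy.2
      rw [hμ, h, one_smul]
    have h1 : y ∈ Module.End.eigenspace f μ := by
      rw [Module.End.mem_eigenspace_iff, hμ]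
    exact (le_iSup₂_of_le (f := fun (μ : ℂ) (_ : μ ≠ 1) => Module.End.eigenspace f μ)
      μ hne le_rfl) h1
  have hv0 : v = 0 :=
    (Submodule.disjoint_def.1 (Module.End.eigenspaces_iSupIndep f 1)) v hv1 hv2
  rw [← huv, hv0, add_zero]
  exact hu

theorem s_hc (hTRI : S_TRI) (hMONW : S_MONW) : S_HC := by
  intro N l _ q hl hP s hs a ha
  have hmem := hTRI N l q hP a
  set S : Set (A N l q) := {y | ∃ (a b : EX N l) (κ : ℕ → ℕ), (∀ j, κ j < l) ∧
      y = mon N q (gF N l q) a.1 * kmon N (gK N l q) κ * mon N q (gE N l q) b.1} with hSdef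
  have hev : ∀ y ∈ S, ∃ μ : ℂ, (tor N l q hl s).toLinearMap y = μ • y := by
    rintro y ⟨a, b, κ, _, rfl⟩
    refine ⟨tw N s (-hcDg N a.1) * tw N s (hcDg N b.1), ?_⟩
    rw [AlgHom.toLinearMap_apply, map_mul, map_mul, hc_tor_monF, hc_tor_kmon, hc_tor_monE,
      smul_mul_assoc, smul_mul_smul_comm]
  have hmem1 := hc_eigen (tor N l q hl s).toLinearMap S hev a hmem ha
  refine hc_span _ ?_ a hmem1
  rintro y ⟨⟨a, b, κ, _, rfl⟩, hy⟩
  by_cases hb : ht N b.1 = 0
  · have hb0 := hc_ht_zero (N := N) b.1 hb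
    have hE : mon N q (gE N l q) b.1 = 1 := hc_mon_one _ _ hb0
    rw [hE, mul_one] at hy ⊢
    by_cases h0 : mon N q (gF N l q) a.1 * kmon N (gK N l q) κ = 0
    · rw [h0]
      exact ⟨fun _ => 0, fun M _ _ _ _ lam m _ => by simp⟩
    · rw [AlgHom.toLinearMap_apply, map_mul, hc_tor_monF, hc_tor_kmon, smul_mul_assoc] at hy
      have h1 : tw N s (-hcDg N a.1) = 1 := by
        by_contra hne
        apply h0
        have h2 : (tw N s (-hcDg N a.1) - 1) • (mon N q (gF N l q) a.1 * kmon N (gK N l q) κ)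
            = 0 := by
          rw [sub_smul, hy, one_smul, sub_self]
        rcases smul_eq_zero.1 h2 with h3 | h3
        · exact absurd (sub_eq_zero.1 h3) hne
        · exact h3
      have h2 : -hcDg N a.1 = 0 := hs (h1.trans (hc_tw_zero N s).symm)
      have h3 : hcDg N a.1 = 0 := neg_eq_zero.1 h2
      have hF : mon N q (gF N l q) a.1 = 1 := hc_mon_one _ _ (hc_Dg_zero a.1 h3)
      rw [hF, one_mul]
      refine ⟨fun lam => ((List.range (N + 1)).map fun j => qz q (hclam lam j) ^ κ j).prod,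
        fun M _ _ _ _ lam m hm => ?_⟩
      exact hc_Klist_smul hm κ _ fun j hj => List.mem_range.1 hj
  · refine ⟨fun _ => 0, fun M _ _ _ _ lam m hm => ?_⟩
    have hw := hMONW (A N l q) N q (gE N l q) b.1 fun i j hij => (b.2 i j).2 hij
    have hz : mon N q (gE N l q) b.1 • m = 0 := by
      generalize mon N q (gE N l q) b.1 = z at hw
      induction hw using Submodule.span_induction with
      | mem x hx =>
        obtain ⟨w, hwl, _, rfl⟩ := hx
        apply hc_word_smul hm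
        intro h
        rw [h] at hwl
        exact hb hwl.symm
      | zero => rw [zero_smul]
      | add x y _ _ hx hy => rw [add_smul, hx, hy, add_zero]
      | smul r x _ hx => rw [smul_assoc, hx, smul_zero]
    rw [mul_smul, hz, smul_zero, zero_smul]

end

end Pool.Agent.Helper16.SQ
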