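import Mathlib
import Pool.Agent.Helper84.SQ.GoalsC
import Pool.Agent.Helper93.FR.PTS

/-!
# SQ-PTA: the states of the cutting plane method in polynomial time
-/

set_option autoImplicit false

namespace Pool.Agent.Helper16.SQ

open Pool.Agent.Helper81.CC Pool.Agent.Bin Pool.Agent.Helper92.VP
open Pool.Agent.Helper92.FR (Qn Cst dot cut cini cen qsc)
open Pool.Agent.Helper84.SQ
open Pool.Agent.Helper93.FR (Inv inv_cut inv_iter inv_sz)

theorem PT_stt {α : Type} [ToData α] {N d k : α → ℕ} {R : α → List Row} {F : α → Obj}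
    (hN : PolyTime N) (hd : PolyTime d) (hk : PolyTime k) (hR : PolyTime R) (hF : PolyTime F) :
    PolyTime (fun a => stt (N a) (d a) (R a) (F a) (k a)) := by
  have hini : PolyTime (fun a => cini (d a) (N a)) := by fun_prop
  have hstep : PolyTime (fun z : α × Cst => cut (d z.1) z.2
      (orc (pD (N z.1)) (R z.1) (F z.1) (cen (d z.1) z.2))) := by
    have f1 : PolyTime (fun z : α × Cst => z.1) := by fun_prop
    have hN' : PolyTime (fun z : α × Cst => N z.1) := PolyTime.comp hN f1
    have hd' : PolyTime (fun z : α × Cst => d z.1) := PolyTime.comp hd f1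
    have hR' : PolyTime (fun z : α × Cst => R z.1) := PolyTime.comp hR f1
    have hF' : PolyTime (fun z : α × Cst => F z.1) := PolyTime.comp hF f1
    fun_prop
  -- the bound
  have hq : PBd (fun a => qsc (d a)) := by
    refine PBd.nat (f := fun a => qsc (d a)) ?_
    unfold qsc
    fun_prop
  have hM : PBd (fun a => 5 * qsc (d a) * k a + (2 * d a + 1) + N a + 1) :=
    ((((((PBd.const 5).mul hq).mul (PBd.nat hk)).add
      (((PBd.const 2).mul (PBd.nat hd)).add (PBd.const 1))).add (PBd.nat hN)).add (PBd.const 1))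
  set M : α → ℕ := fun a => 5 * qsc (d a) * k a + (2 * d a + 1) + N a + 1 with hMdef
  have hBd : PBd (fun a => ((8 * M a + 4) * d a + 2) * (d a + 1) + 1 +
      (4 * M a + 1) + 1) :=
    ((((((((PBd.const 8).mul hM).add (PBd.const 4)).mul (PBd.nat hd)).add (PBd.const 2)).mul
      ((PBd.nat hd).add (PBd.const 1))).add (PBd.const 1)).add
        (((PBd.const 4).mul hM).add (PBd.const 1))).add (PBd.const 1)
  unfold stt
  refine PolyTime.iterate_bd (n := k) (s0 := fun a => cini (d a) (N a))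
    (step := fun a st => cut (d a) st (orc (pD (N a)) (R a) (F a) (cen (d a) st)))
    hk hini hstep hBd ?_
  intro a j hj
  have hinv := inv_iter (d a) (N a)
    (fun st => cut (d a) st (orc (pD (N a)) (R a) (F a) (cen (d a) st)))
    (fun Y Z st h => inv_cut _ h) j
  have hQ : 1 ≤ 5 * qsc (d a) := by
    have : 0 < 5 * qsc (d a) := by
      unfold qsc
      positivity
    exact this
  have hp1 : (5 * qsc (d a)) ^ j ≤ 2 ^ (5 * qsc (d a) * k a) := by
    calc (5 * qsc (d a)) ^ j ≤ (5 * qsc (d a)) ^ (k a) := Nat.pow_le_pow_right hQ hj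
      _ ≤ (2 ^ (5 * qsc (d a))) ^ (k a) := Nat.pow_le_pow_left Nat.lt_two_pow_self.le _
      _ = 2 ^ (5 * qsc (d a) * k a) := by rw [← pow_mul]
  have hp2 : 2 * d a + 1 ≤ 2 ^ (2 * d a + 1) := Nat.lt_two_pow_self.le
  have hMa : M a = 5 * qsc (d a) * k a + (2 * d a + 1) + N a + 1 := rfl
  have hpow : 2 ^ (M a) = 2 * (2 ^ (5 * qsc (d a) * k a) * (2 ^ (2 * d a + 1) * 2 ^ N a)) := by
    rw [hMa, pow_succ, pow_add, pow_add]
    ring
  have hpos : 0 < 2 ^ (5 * qsc (d a) * k a) * (2 ^ (2 * d a + 1) * 2 ^ N a) := by positivity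
  refine inv_sz hinv ?_ ?_
  · have h1 : (5 * qsc (d a)) ^ j * ((2 * d a + 1) * 2 ^ N a) ≤
        2 ^ (5 * qsc (d a) * k a) * (2 ^ (2 * d a + 1) * 2 ^ N a) :=
      Nat.mul_le_mul hp1 (Nat.mul_le_mul_right _ hp2)
    omega
  · have h1 : (5 * qsc (d a)) ^ j ≤ 2 ^ (5 * qsc (d a) * k a) * (2 ^ (2 * d a + 1) * 2 ^ N a) :=
      hp1.trans (Nat.le_mul_of_pos_right _ (by positivity))
    omega

theorem PT_cens {α : Type} [ToData α] {N d : α → ℕ} {R : α → List Row} {F : α → Obj}
    (hN : PolyTime N) (hd : PolyTime d) (hR : PolyTime R) (hF : PolyTime F) :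
    PolyTime (fun a => cens (N a) (d a) (R a) (F a)) := by
  have hcen : PolyTime (fun z : α × ℕ => cen (d z.1) (stt (N z.1) (d z.1) (R z.1) (F z.1) z.2)) := by
    have f1 : PolyTime (fun z : α × ℕ => z.1) := by fun_prop
    have f2 : PolyTime (fun z : α × ℕ => z.2) := by fun_prop
    have hN' : PolyTime (fun z : α × ℕ => N z.1) := PolyTime.comp hN f1
    have hd' : PolyTime (fun z : α × ℕ => d z.1) := PolyTime.comp hd f1
    have hR' : PolyTime (fun z : α × ℕ => R z.1) := PolyTime.comp hR f1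
    have hF' : PolyTime (fun z : α × ℕ => F z.1) := PolyTime.comp hF f1
    have hs : PolyTime (fun z : α × ℕ => stt (N z.1) (d z.1) (R z.1) (F z.1) z.2) :=
      PT_stt hN' hd' f2 hR' hF'
    exact Pool.Agent.Helper73.FR.PT_cen hd' hs
  unfold cens
  fun_prop

theorem PT_bst {α : Type} [ToData α] {N d : α → ℕ} {R : α → List Row} {F : α → Obj}
    (hN : PolyTime N) (hd : PolyTime d) (hR : PolyTime R) (hF : PolyTime F) :
    PolyTime (fun a => bst (N a) (d a) (R a) (F a)) := by
  have hc : PolyTime (fun a => cens (N a) (d a) (R a) (F a)) := PT_cens hN hd hR hF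
  unfold bst
  generalize hcc : (fun a => cens (N a) (d a) (R a) (F a)) = cc at hc
  have e : ∀ a, cens (N a) (d a) (R a) (F a) = cc a := fun a => by rw [← hcc]
  simp only [e]
  fun_prop

theorem pta : PtaStmt := by
  intro α _ N d k R F hN hd hk hR hF
  refine ⟨PT_stt hN hd hk hR hF, PT_bst hN hd hR hF, ?_⟩
  have hb := PT_bst hN hd hR hF
  unfold optv
  generalize hcc : (fun a => bst (N a) (d a) (R a) (F a)) = cc at hb
  have e : ∀ a, bst (N a) (d a) (R a) (F a) = cc a := fun a => by rw [← hcc]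
  simp only [e]
  fun_prop

end Pool.Agent.Helper16.SQ
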