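import Mathlib
import Pool.Agent.Helper84.SQ.GoalsD

/-!
# SQ-QUD: the objective on the line far away
-/

set_option autoImplicit false

namespace Pool.Agent.Helper16.SQ

open Pool.Agent.Helper84.SQ

/-- the quadratic polynomial on the line. -/
lemma quad_line {n : ℕ} (q h : Fin n → ℤ) (κ : ℤ) (D : ℕ) (hD : 1 ≤ D) (X Y : Fin n → ℤ) (τ : ℤ) :
    (D : ℝ) ^ 2 * (gR q h (pt D X Y τ) - κ * (τ : ℝ) ^ 2) =
      (((∑ j, q j * Y j ^ 2 - κ * (D : ℤ) ^ 2 : ℤ)) : ℝ) * (τ : ℝ) ^ 2 +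
      (((∑ j, (2 * q j * X j * Y j + D * (h j * Y j)) : ℤ)) : ℝ) * τ +
      (((∑ j, (q j * X j ^ 2 + D * (h j * X j)) : ℤ)) : ℝ) := by
  have hD0 : (D : ℝ) ≠ 0 := by positivity
  have e1 : (D : ℝ) ^ 2 * gR q h (pt D X Y τ) =
      ∑ j, ((q j : ℝ) * ((X j : ℝ) + τ * Y j) ^ 2 + D * (h j * ((X j : ℝ) + τ * Y j))) := by
    unfold gR pt
    rw [Finset.mul_sum]
    refine Finset.sum_congr rfl fun j _ => ?_
    field_simp
  rw [mul_sub, e1]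
  push_cast
  have e2 : ∑ j, ((q j : ℝ) * ((X j : ℝ) + τ * Y j) ^ 2 + D * (h j * ((X j : ℝ) + τ * Y j))) =
      (∑ j, (q j : ℝ) * (Y j : ℝ) ^ 2) * (τ : ℝ) ^ 2 +
      (∑ j, (2 * (q j : ℝ) * X j * Y j + D * (h j * Y j))) * τ +
      ∑ j, ((q j : ℝ) * (X j : ℝ) ^ 2 + D * (h j * X j)) := by
    rw [Finset.sum_mul, Finset.sum_mul, ← Finset.sum_add_distrib, ← Finset.sum_add_distrib]
    refine Finset.sum_congr rfl fun j _ => ?_
    ring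
  rw [e2]
  ring

lemma term_bd {q h X Y S Δ D : ℤ} (hq0 : 0 ≤ q) (hq : q ≤ S) (hh : |h| ≤ S) (hX : |X| ≤ Δ)
    (hY : |Y| ≤ Δ) (hD0 : 0 ≤ D) (hD : D ≤ Δ) (hS : 0 ≤ S) :
    |2 * q * X * Y + D * (h * Y)| ≤ 3 * (S * Δ ^ 2) ∧
    |q * X ^ 2 + D * (h * X)| ≤ 3 * (S * Δ ^ 2) := by
  have hΔ : 0 ≤ Δ := (abs_nonneg X).trans hX
  have aq : |q| ≤ S := by rwa [abs_of_nonneg hq0]
  have aD : |D| ≤ Δ := by rwa [abs_of_nonneg hD0]
  have m1 : |2 * q * X * Y| ≤ 2 * (S * Δ ^ 2) := by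
    have : |2 * q * X * Y| = 2 * (|q| * (|X| * |Y|)) := by
      rw [abs_mul, abs_mul, abs_mul, abs_two]; ring
    rw [this, pow_two]
    have := mul_le_mul aq (mul_le_mul hX hY (abs_nonneg _) hΔ)
      (mul_nonneg (abs_nonneg _) (abs_nonneg _)) hS
    linarith
  have m2 : ∀ Z : ℤ, |Z| ≤ Δ → |D * (h * Z)| ≤ S * Δ ^ 2 := by
    intro Z hZ
    have : |D * (h * Z)| = |h| * (|D| * |Z|) := by
      rw [abs_mul, abs_mul]; ring
    rw [this, pow_two]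
    exact mul_le_mul hh (mul_le_mul aD hZ (abs_nonneg _) hΔ)
      (mul_nonneg (abs_nonneg _) (abs_nonneg _)) hS
  have m3 : |q * X ^ 2| ≤ S * Δ ^ 2 := by
    have : |q * X ^ 2| = |q| * (|X| * |X|) := by
      rw [abs_mul, pow_two, abs_mul]
    rw [this, pow_two]
    exact mul_le_mul aq (mul_le_mul hX hX (abs_nonneg _) hΔ)
      (mul_nonneg (abs_nonneg _) (abs_nonneg _)) hS
  have hp : 0 ≤ S * Δ ^ 2 := mul_nonneg hS (by positivity)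
  constructor
  · calc |2 * q * X * Y + D * (h * Y)| ≤ |2 * q * X * Y| + |D * (h * Y)| := abs_add_le _ _
      _ ≤ 2 * (S * Δ ^ 2) + S * Δ ^ 2 := add_le_add m1 (m2 Y hY)
      _ = 3 * (S * Δ ^ 2) := by ring
  · calc |q * X ^ 2 + D * (h * X)| ≤ |q * X ^ 2| + |D * (h * X)| := abs_add_le _ _
      _ ≤ S * Δ ^ 2 + S * Δ ^ 2 := add_le_add m3 (m2 X hX)
      _ ≤ 3 * (S * Δ ^ 2) := by linarith

lemma num_bd {s n : ℕ} (hs : 2 ≤ s) (hn : n ≤ s) :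
    2 * ((n : ℤ) * (3 * (2 ^ s * (2 ^ eE s) ^ 2))) ≤ 2 ^ (3 * eE s) := by
  have h1 : n ≤ 2 ^ s := hn.trans Nat.lt_two_pow_self.le
  have h2 : 2 * s + 3 ≤ eE s := by
    unfold eE
    nlinarith
  have h3 : 2 * (n * (3 * 2 ^ s)) ≤ 2 ^ eE s := by
    calc 2 * (n * (3 * 2 ^ s)) ≤ 2 * (2 ^ s * (4 * 2 ^ s)) := by
          have : n * (3 * 2 ^ s) ≤ 2 ^ s * (4 * 2 ^ s) :=
            Nat.mul_le_mul h1 (Nat.mul_le_mul_right _ (by norm_num))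
          omega
      _ = 2 ^ (2 * s + 3) := by ring
      _ ≤ 2 ^ eE s := Nat.pow_le_pow_right (by norm_num) h2
  have h4 : 2 * ((n : ℤ) * (3 * 2 ^ s)) ≤ 2 ^ eE s := by exact_mod_cast h3
  calc 2 * ((n : ℤ) * (3 * (2 ^ s * (2 ^ eE s) ^ 2)))
      = (2 * ((n : ℤ) * (3 * 2 ^ s))) * (2 ^ eE s) ^ 2 := by ring
    _ ≤ 2 ^ eE s * (2 ^ eE s) ^ 2 := mul_le_mul_of_nonneg_right h4 (by positivity)
    _ = 2 ^ (3 * eE s) := by ring

/-- The real inequality. -/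
lemma quad_real {a b c : ℤ} {L T Δ d τ τ' : ℝ} (hL : 0 ≤ L) (hd : 1 ≤ d)
    (hdΔ : d ≤ Δ) (hb : 2 * |(b : ℝ)| ≤ L) (hc : |(c : ℝ)| ≤ L) (hLT : L + 1 ≤ T) (hτ : T ≤ τ)
    (hτ' : T ≤ τ') (h : a * τ ^ 2 + b * τ + c < -L * d ^ 2) :
    a * τ' ^ 2 + b * τ' + c ≤ (L - τ') / Δ ^ 2 * d ^ 2 := by
  have hd2 : 1 ≤ d ^ 2 := one_le_pow₀ hd
  have hΔ : 0 < Δ := by linarith
  have hb' := abs_le.mp (show |(b : ℝ)| ≤ L by linarith [abs_nonneg (b : ℝ)])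
  have hc' := abs_le.mp hc
  have key : (a : ℝ) * τ' ^ 2 + b * τ' + c ≤ L - τ' := by
    have hLd : L ≤ L * d ^ 2 := le_mul_of_one_le_right hL hd2
    rcases lt_trichotomy a 0 with ha | ha | ha
    · have ha' : (a : ℝ) ≤ -1 := by exact_mod_cast Int.le_sub_one_of_lt ha
      have h1 : (a : ℝ) * τ' ^ 2 ≤ -1 * τ' ^ 2 := mul_le_mul_of_nonneg_right ha' (by positivity)
      have h2 : (b : ℝ) * τ' ≤ L * τ' := mul_le_mul_of_nonneg_right hb'.2 (by linarith)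
      have h3 : (L + 1) * τ' ≤ τ' * τ' := mul_le_mul_of_nonneg_right (by linarith) (by linarith)
      nlinarith
    · subst ha
      rcases lt_or_ge b 0 with hb0 | hb0
      · have hb1 : (b : ℝ) ≤ -1 := by exact_mod_cast Int.le_sub_one_of_lt hb0
        have h2 : (b : ℝ) * τ' ≤ -1 * τ' := mul_le_mul_of_nonneg_right hb1 (by linarith)
        push_cast
        linarith
      · exfalso
        have hb1 : (0 : ℝ) ≤ b := by exact_mod_cast hb0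
        have h2 : 0 ≤ (b : ℝ) * τ := mul_nonneg hb1 (by linarith)
        push_cast at h
        linarith
    · exfalso
      have ha' : (1 : ℝ) ≤ a := by exact_mod_cast ha
      have h1 : 1 * τ ^ 2 ≤ (a : ℝ) * τ ^ 2 := mul_le_mul_of_nonneg_right ha' (by positivity)
      have h2 : -L * τ ≤ (b : ℝ) * τ := mul_le_mul_of_nonneg_right hb'.1 (by linarith)
      have h3 : (L + 1) * τ ≤ τ * τ := mul_le_mul_of_nonneg_right (by linarith) (by linarith)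
      nlinarith
  refine key.trans ?_
  have hneg : L - τ' ≤ 0 := by linarith
  have hr : d ^ 2 / Δ ^ 2 ≤ 1 := by
    rw [div_le_one (by positivity)]
    exact pow_le_pow_left₀ (by linarith) hdΔ 2
  calc L - τ' = (L - τ') * 1 := by ring
    _ ≤ (L - τ') * (d ^ 2 / Δ ^ 2) := mul_le_mul_of_nonpos_left hr hneg
    _ = (L - τ') / Δ ^ 2 * d ^ 2 := by ring

theorem qud : QudStmt := by
  intro m n s W w q h κ D X Y τ τ' hS hκ hκ' hD hDE hX hY hτ hτ' hlt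
  have hD0 : (1 : ℝ) ≤ D := by exact_mod_cast hD
  have hD2 : (0 : ℝ) < (D : ℝ) ^ 2 := by positivity
  have hDz : (D : ℤ) ≤ 2 ^ eE s := by exact_mod_cast hDE
  have hbd : ∀ j, |2 * q j * X j * Y j + D * (h j * Y j)| ≤ 3 * (2 ^ s * (2 ^ eE s) ^ 2) ∧
      |q j * X j ^ 2 + D * (h j * X j)| ≤ 3 * (2 ^ s * (2 ^ eE s) ^ 2) := fun j =>
    term_bd (hS.q0 j) (hS.qs j) (hS.hs j) (hX j) (hY j) (by positivity) hDz (by positivity)
  have hN := num_bd hS.s2 hS.ns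
  have hsum : ∀ g : Fin n → ℤ, (∀ j, |g j| ≤ 3 * (2 ^ s * (2 ^ eE s) ^ 2)) →
      2 * |∑ j, g j| ≤ 2 ^ (3 * eE s) := by
    intro g hg
    have h1 : |∑ j, g j| ≤ (n : ℤ) * (3 * (2 ^ s * (2 ^ eE s) ^ 2)) := by
      calc |∑ j, g j| ≤ ∑ j, |g j| := Finset.abs_sum_le_sum_abs _ _
        _ ≤ ∑ _j : Fin n, 3 * (2 ^ s * (2 ^ eE s) ^ 2) := Finset.sum_le_sum fun j _ => hg j
        _ = (n : ℤ) * (3 * (2 ^ s * (2 ^ eE s) ^ 2)) := by
          rw [Finset.sum_const, Finset.card_univ, Fintype.card_fin, nsmul_eq_mul]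
    linarith
  have hb := hsum _ fun j => (hbd j).1
  have hc := hsum _ fun j => (hbd j).2
  have e1 := quad_line q h κ D hD X Y τ
  have e2 := quad_line q h κ D hD X Y τ'
  generalize (∑ j, q j * Y j ^ 2 - κ * (D : ℤ) ^ 2) = a at e1 e2
  generalize (∑ j, (2 * q j * X j * Y j + D * (h j * Y j))) = b at e1 e2 hb
  generalize (∑ j, (q j * X j ^ 2 + D * (h j * X j))) = c at e1 e2 hc
  have hb' : 2 * |(b : ℝ)| ≤ 2 ^ (3 * eE s) := by exact_mod_cast hb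
  have hc' : |(c : ℝ)| ≤ 2 ^ (3 * eE s) := by
    have : 2 * |(c : ℝ)| ≤ 2 ^ (3 * eE s) := by exact_mod_cast hc
    linarith [abs_nonneg (c : ℝ)]
  have hE : 1 ≤ eE s := by
    have := hS.s2
    unfold eE
    nlinarith
  have hLT : (2 : ℝ) ^ (3 * eE s) + 1 ≤ 2 ^ (5 * eE s) := by
    have h1 : (2 : ℝ) ^ (3 * eE s + 1) ≤ 2 ^ (5 * eE s) :=
      pow_le_pow_right₀ (by norm_num) (by omega)
    have h2 : (1 : ℝ) ≤ 2 ^ (3 * eE s) := one_le_pow₀ (by norm_num)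
    rw [pow_succ] at h1
    linarith
  have hτr : (2 : ℝ) ^ (5 * eE s) ≤ τ := by exact_mod_cast hτ
  have hτr' : (2 : ℝ) ^ (5 * eE s) ≤ τ' := by exact_mod_cast hτ'
  have hDr : (D : ℝ) ≤ 2 ^ eE s := by exact_mod_cast hDE
  have h0 : (a : ℝ) * (τ : ℝ) ^ 2 + b * τ + c < -(2 : ℝ) ^ (3 * eE s) * (D : ℝ) ^ 2 := by
    rw [← e1]
    calc (D : ℝ) ^ 2 * (gR q h (pt D X Y τ) - κ * (τ : ℝ) ^ 2)
        < (D : ℝ) ^ 2 * (-2 ^ (3 * eE s)) := mul_lt_mul_of_pos_left hlt hD2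
      _ = -(2 : ℝ) ^ (3 * eE s) * (D : ℝ) ^ 2 := by ring
  have hfin := quad_real (a := a) (b := b) (c := c) (by positivity) hD0 hDr hb' hc' hLT hτr hτr' h0
  rw [← e2] at hfin
  have hpow : ((2 : ℝ) ^ eE s) ^ 2 = 2 ^ (2 * eE s) := by rw [← pow_mul, mul_comm]
  rw [hpow] at hfin
  have h3 : (D : ℝ) ^ 2 * (gR q h (pt D X Y τ') - κ * (τ' : ℝ) ^ 2) ≤
      (D : ℝ) ^ 2 * ((2 ^ (3 * eE s) - τ') / 2 ^ (2 * eE s)) := by
    rw [mul_comm ((D : ℝ) ^ 2) ((2 ^ (3 * eE s) - (τ' : ℝ)) / 2 ^ (2 * eE s))]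
    exact hfin
  exact le_of_mul_le_mul_left h3 hD2

end Pool.Agent.Helper16.SQ
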